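import Mathlib

open Finset

namespace Pool.Agent.H62.BM

set_option linter.unusedSectionVars false

variable {ι : Type*} [DecidableEq ι]

/-- The average of `φ T` over the random subset `T` of `S` which contains each element of `S`
independently with probability `1/16`. -/
noncomputable def av (S : Finset ι) (φ : Finset ι → ℝ) : ℝ :=
  ∑ T ∈ S.powerset, (1 / 16 : ℝ) ^ T.card * (15 / 16 : ℝ) ^ (S.card - T.card) * φ T

theorem av_empty (φ : Finset ι → ℝ) : av ∅ φ = φ ∅ := by
  simp [av]

theorem av_insert {a : ι} {S : Finset ι} (ha : a ∉ S) (φ : Finset ι → ℝ) :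
    av (insert a S) φ = 1 / 16 * av S (fun T => φ (insert a T)) + 15 / 16 * av S φ := by
  unfold av
  rw [Finset.sum_powerset_insert ha, Finset.card_insert_of_notMem ha, add_comm]
  congr 1
  · rw [Finset.mul_sum]
    refine Finset.sum_congr rfl fun T hT => ?_
    have hTS : T ⊆ S := Finset.mem_powerset.1 hT
    have haT : a ∉ T := fun h => ha (hTS h)
    rw [Finset.card_insert_of_notMem haT, Nat.add_sub_add_right, pow_succ]
    ring
  · rw [Finset.mul_sum]
    refine Finset.sum_congr rfl fun T hT => ?_
    have hTS : T ⊆ S := Finset.mem_powerset.1 hT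
    have hc : T.card ≤ S.card := Finset.card_le_card hTS
    rw [Nat.sub_add_comm hc, pow_succ]
    ring

theorem av_congr {S : Finset ι} {φ ψ : Finset ι → ℝ} (h : ∀ T ⊆ S, φ T = ψ T) :
    av S φ = av S ψ := by
  unfold av
  exact Finset.sum_congr rfl fun T hT => by rw [h T (Finset.mem_powerset.1 hT)]

theorem av_add (S : Finset ι) (φ ψ : Finset ι → ℝ) :
    av S (fun T => φ T + ψ T) = av S φ + av S ψ := by
  unfold av
  rw [← Finset.sum_add_distrib]
  exact Finset.sum_congr rfl fun T _ => by ring

theorem av_mul_left (S : Finset ι) (c : ℝ) (φ : Finset ι → ℝ) :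
    av S (fun T => c * φ T) = c * av S φ := by
  unfold av
  rw [Finset.mul_sum]
  exact Finset.sum_congr rfl fun T _ => by ring

theorem av_sub (S : Finset ι) (φ ψ : Finset ι → ℝ) :
    av S (fun T => φ T - ψ T) = av S φ - av S ψ := by
  unfold av
  rw [← Finset.sum_sub_distrib]
  exact Finset.sum_congr rfl fun T _ => by ring

theorem av_mono {S : Finset ι} {φ ψ : Finset ι → ℝ} (h : ∀ T ⊆ S, φ T ≤ ψ T) :
    av S φ ≤ av S ψ := by
  unfold av
  refine Finset.sum_le_sum fun T hT => ?_
  exact mul_le_mul_of_nonneg_left (h T (Finset.mem_powerset.1 hT)) (by positivity)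

theorem av_const (S : Finset ι) (c : ℝ) : av S (fun _ => c) = c := by
  induction S using Finset.induction_on with
  | empty => rw [av_empty]
  | insert a S ha ih => rw [av_insert ha, ih]; ring

theorem abs_av_le (S : Finset ι) (φ : Finset ι → ℝ) : |av S φ| ≤ av S (fun T => |φ T|) := by
  rw [abs_le]
  constructor
  · have h : av S (fun T => (-1) * |φ T|) ≤ av S φ := av_mono fun T _ => by
      have := neg_abs_le (φ T); linarith
    rw [av_mul_left] at h
    linarith
  · exact av_mono fun T _ => le_abs_self _

theorem av_sum {κ : Type*} (S : Finset ι) (s : Finset κ) (f : κ → Finset ι → ℝ) :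
    av S (fun T => ∑ k ∈ s, f k T) = ∑ k ∈ s, av S (f k) := by
  classical
  induction s using Finset.induction_on with
  | empty => simpa using av_const S (0 : ℝ)
  | insert a s ha ih =>
    have h : (fun T => ∑ k ∈ insert a s, f k T) = fun T => f a T + ∑ k ∈ s, f k T := by
      funext T; rw [Finset.sum_insert ha]
    rw [h, av_add, ih, Finset.sum_insert ha]

theorem av_inter (S F : Finset ι) (φ : Finset ι → ℝ) :
    av S (fun T => φ (T ∩ F)) = av (S ∩ F) φ := by
  induction S using Finset.induction_on generalizing φ with
  | empty => simp [av_empty]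
  | insert a S ha ih =>
    rw [av_insert ha]
    by_cases haF : a ∈ F
    · have h1 : (fun T : Finset ι => φ (insert a T ∩ F)) =
          fun T => (fun R => φ (insert a R)) (T ∩ F) := by
        funext T; rw [Finset.insert_inter_of_mem haF]
      rw [h1, ih (fun R => φ (insert a R)), ih φ, Finset.insert_inter_of_mem haF, av_insert]
      simp [ha]
    · have h1 : (fun T : Finset ι => φ (insert a T ∩ F)) = fun T => φ (T ∩ F) := by
        funext T; rw [Finset.insert_inter_of_notMem haF]
      rw [h1, ih, Finset.insert_inter_of_notMem haF]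
      ring

theorem av_exp (S J : Finset ι) :
    av S (fun T => (16 : ℝ) ^ (T ∩ J).card) ≤ 2 ^ J.card := by
  have key : av S (fun T => (16 : ℝ) ^ (T ∩ J).card) ≤ 2 ^ (S ∩ J).card := by
    rw [av_inter S J (fun R => (16 : ℝ) ^ R.card)]
    generalize S ∩ J = U
    induction U using Finset.induction_on with
    | empty => rw [av_empty]; simp
    | insert a U ha ih =>
      rw [av_insert ha, Finset.card_insert_of_notMem ha]
      have h1 : av U (fun T => (16 : ℝ) ^ (insert a T).card) =
          16 * av U (fun T => (16 : ℝ) ^ T.card) := by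
        rw [← av_mul_left]
        refine av_congr fun T hT => ?_
        rw [Finset.card_insert_of_notMem fun h => ha (hT h), pow_succ]
        ring
      rw [h1, pow_succ]
      nlinarith [ih, pow_pos (show (0 : ℝ) < 2 by norm_num) U.card]
  refine key.trans (pow_le_pow_right₀ (by norm_num) (Finset.card_le_card Finset.inter_subset_right))

end Pool.Agent.H62.BM
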