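import Pool.Agent.H62.BM.Func

open Finset Filter Topology

namespace Pool.Agent.H62.BM

set_option linter.unusedSectionVars false

/-- The weak Baire sigma-algebra of a normed space: the smallest sigma-algebra for which every
weakly continuous real function is measurable. -/
noncomputable def weakBaire (X : Type*) [NormedAddCommGroup X] [NormedSpace ℝ X] : MeasurableSpace X :=
  ⨆ f : {f : WeakSpace ℝ X → ℝ // Continuous f},
    MeasurableSpace.comap (fun x : X => f.1 (toWeakSpace ℝ X x)) (borel ℝ)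

/-- A subset of the dual space is weak-star separable if it has a countable subset that is
weak-star dense in it. -/
def WeakStarSeparable {X : Type*} [NormedAddCommGroup X] [NormedSpace ℝ X]
    (S : Set (WeakDual ℝ X)) : Prop :=
  ∃ D : Set (WeakDual ℝ X), D ⊆ S ∧ D.Countable ∧ S ⊆ closure D

/-- The closed unit ball of the dual space. -/
def dualBall (X : Type*) [NormedAddCommGroup X] [NormedSpace ℝ X] : Set (WeakDual ℝ X) :=
  {φ | ∀ x : X, |φ x| ≤ ‖x‖}

theorem measurable_dual {X : Type*} [NormedAddCommGroup X] [NormedSpace ℝ X] (φ : X →L[ℝ] ℝ) :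
    @Measurable X ℝ (weakBaire X) (borel ℝ) (fun x => φ x) := by
  have hc : Continuous (fun x : WeakSpace ℝ X => φ ((toWeakSpace ℝ X).symm x)) :=
    WeakBilin.eval_continuous (topDualPairing ℝ X).flip φ
  have h1 : MeasurableSpace.comap (fun x : X => φ x) (borel ℝ) ≤ weakBaire X :=
    le_iSup (fun f : {f : WeakSpace ℝ X → ℝ // Continuous f} =>
      MeasurableSpace.comap (fun x : X => f.1 (toWeakSpace ℝ X x)) (borel ℝ))
      ⟨fun x : WeakSpace ℝ X => φ ((toWeakSpace ℝ X).symm x), hc⟩
  exact measurable_iff_comap_le.2 h1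

/-- Measurability of the norm from the description of its sublevel sets. -/
theorem norm_measurable [DecidableEq I] :
    @Measurable C(L I, ℝ) ℝ (weakBaire C(L I, ℝ)) (borel ℝ) (fun g => ‖g‖) := by
  let _ : MeasurableSpace C(L I, ℝ) := weakBaire C(L I, ℝ)
  have hE : ∀ (m : ℕ) (l : List (Fin m → Bool)),
      Measurable (fun g : C(L I, ℝ) => E m l g) := by
    intro m l
    exact meas_extrap (fun P g => lam P g) (fun P => measurable_dual (lamL P)) _ _
  refine measurable_of_Iic fun r => ?_
  by_cases hr : 0 ≤ r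
  · have hset : (fun g : C(L I, ℝ) => ‖g‖) ⁻¹' Set.Iic r =
        ⋂ q : ℕ, ⋂ k : ℕ, ⋃ M : ℕ, ⋂ m : ℕ, ⋂ _ : M ≤ m, ⋂ l : List (Fin m → Bool),
          ⋂ _ : l.Nodup, ⋂ _ : l.length ≤ q,
            {g : C(L I, ℝ) | |E m l g| ≤ r + 1 / ((k : ℝ) + 1)} := by
      ext g
      simp only [Set.mem_preimage, Set.mem_Iic, Set.mem_iInter, Set.mem_iUnion,
        Set.mem_ofPred_eq]
      exact norm_iff g hr
    rw [hset]
    refine MeasurableSet.iInter fun q => MeasurableSet.iInter fun k =>
      MeasurableSet.iUnion fun M => MeasurableSet.iInter fun m => MeasurableSet.iInter fun _ =>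
      MeasurableSet.iInter fun l => MeasurableSet.iInter fun _ => MeasurableSet.iInter fun _ => ?_
    exact measurableSet_le (hE m l).abs measurable_const
  · have hset : (fun g : C(L I, ℝ) => ‖g‖) ⁻¹' Set.Iic r = ∅ := by
      ext g
      simp only [Set.mem_preimage, Set.mem_Iic, Set.mem_empty_iff_false, iff_false]
      exact fun h => hr ((norm_nonneg g).trans h)
    rw [hset]
    exact MeasurableSet.empty

section
variable {ι : Type} [DecidableEq ι]

/-- The number of elements of the finite set `J` in a point of `L`. -/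
noncomputable def cnt (J : Finset ι) (t : L ι) : ℝ := ∑ β ∈ J, coord (Sum.inl β) t

theorem cnt_val (J T : Finset ι) : cnt J (val T) = (T ∩ J).card := by
  unfold cnt
  have h : ∀ β ∈ J, coord (Sum.inl β) (val T) = if β ∈ T then (1 : ℝ) else 0 := by
    intro β _
    rw [coord_apply]
    by_cases hβ : β ∈ T
    · rw [if_pos hβ, if_pos ((val_inl T β).2 hβ)]
    · rw [if_neg hβ, if_neg fun h => hβ ((val_inl T β).1 h)]
  rw [Finset.sum_congr rfl h, Finset.sum_boole, Finset.inter_comm]
  congr 2

theorem coord_nonneg (i : ι ⊕ Seqs ι) (t : L ι) : 0 ≤ coord i t := by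
  rw [coord_apply]; split_ifs <;> norm_num

theorem coord_le_one (i : ι ⊕ Seqs ι) (t : L ι) : coord i t ≤ 1 := by
  rw [coord_apply]; split_ifs <;> norm_num

theorem thin_closed (J : Seqs ι) (n : ℕ) (t : L ι) :
    coord (Sum.inr J) t * (4 * cnt (J.1 n) t - 3 * (n + 2)) ≤ 0 := by
  have hcnt : Continuous (cnt (J.1 n)) := by
    unfold cnt
    exact continuous_finsetSum _ fun β _ => (coord (Sum.inl β)).continuous
  have hc : IsClosed {t : L ι | coord (Sum.inr J) t * (4 * cnt (J.1 n) t - 3 * (n + 2)) ≤ 0} :=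
    isClosed_le ((coord (Sum.inr J)).continuous.mul
      ((hcnt.const_mul 4).sub continuous_const)) continuous_const
  have hsub : Set.range (val : Finset ι → L ι) ⊆
      {t : L ι | coord (Sum.inr J) t * (4 * cnt (J.1 n) t - 3 * (n + 2)) ≤ 0} := by
    rintro _ ⟨T, rfl⟩
    show coord (Sum.inr J) (val T) * (4 * cnt (J.1 n) (val T) - 3 * (n + 2)) ≤ 0
    by_cases hT : Thin T J
    · rw [coord_inr_pos hT, cnt_val]
      have h1 : (4 : ℝ) * (T ∩ J.1 n).card ≤ 3 * (n + 2) := by exact_mod_cast hT n
      linarith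
    · rw [coord_inr_neg hT]
      simp
  exact closure_minimal hsub hc (dense_val t)

/-- The dual unit ball of `C(L)` is not weak-star separable. -/
theorem not_separable [Uncountable ι] : ¬ WeakStarSeparable (dualBall C(L ι, ℝ)) := by
  rintro ⟨D, hDB, hDc, hcl⟩
  have hne : D.Nonempty := by
    rw [Set.nonempty_iff_ne_empty]
    rintro rfl
    have h0 : (0 : WeakDual ℝ C(L ι, ℝ)) ∈ dualBall C(L ι, ℝ) := by
      intro x
      show |(0 : ℝ)| ≤ ‖x‖
      rw [abs_zero]
      exact norm_nonneg x
    simpa using hcl h0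
  obtain ⟨f, rfl⟩ := hDc.exists_eq_range hne
  have hf : ∀ n x, |f n x| ≤ ‖x‖ := fun n => hDB ⟨n, rfl⟩
  -- the pigeonhole step
  have key : ∃ α : ι, ∀ n : ℕ, ∃ J : Finset ι, J.card = n + 2 ∧ ∀ h : C(L ι, ℝ),
      (∀ t, |h t| ≤ coord (Sum.inl α) t) → (∀ t, 3 * ((n : ℝ) + 2) < 4 * cnt J t → h t = 0) →
        |f n h| ≤ 3 / 4 := by
    by_contra hcon
    push Not at hcon
    choose N hN using hcon
    obtain ⟨n, hn⟩ : ∃ n, (N ⁻¹' {n}).Infinite := by
      by_contra hfin
      push Not at hfin
      have hcount : (Set.univ : Set ι).Countable := by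
        have : (Set.univ : Set ι) = ⋃ n, N ⁻¹' {n} := by
          ext x; simp
        rw [this]
        exact Set.countable_iUnion fun n => (hfin n).countable
      exact Set.not_countable_univ hcount
    obtain ⟨J, hJ, hJc⟩ := hn.exists_subset_card_eq (n + 2)
    have hJN : ∀ β ∈ J, N β = n := fun β hβ => hJ hβ
    have hex : ∀ β : ι, ∃ h : C(L ι, ℝ), β ∈ J → (∀ t, |h t| ≤ coord (Sum.inl β) t) ∧
        (∀ t, 3 * ((n : ℝ) + 2) < 4 * cnt J t → h t = 0) ∧ 3 / 4 < f n h := by
      intro β
      by_cases hβ : β ∈ J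
      · have hc : J.card = N β + 2 := by rw [hJN β hβ]; exact hJc
        obtain ⟨h, h1, h2, h3⟩ := hN β J hc
        rw [hJN β hβ] at h2 h3
        rcases le_or_gt 0 (f n h) with hpos | hneg
        · exact ⟨h, fun _ => ⟨h1, h2, by rwa [abs_of_nonneg hpos] at h3⟩⟩
        · refine ⟨-h, fun _ => ⟨fun t => by simpa using h1 t, fun t ht => by
            simpa using h2 t ht, ?_⟩⟩
          rw [abs_of_neg hneg] at h3
          rw [map_neg]
          exact h3
      · exact ⟨0, fun h => absurd h hβ⟩
    choose h hh using hex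
    have hsum : 3 / 4 * ((n : ℝ) + 2) < f n (∑ β ∈ J, h β) := by
      rw [map_sum]
      have h1 : ∑ _β ∈ J, (3 / 4 : ℝ) < ∑ β ∈ J, f n (h β) := by
        refine Finset.sum_lt_sum_of_nonempty ?_ fun β hβ => (hh β hβ).2.2
        rw [← Finset.card_pos]; omega
      rw [Finset.sum_const, hJc, nsmul_eq_mul] at h1
      push_cast at h1
      linarith
    have hnorm : ‖∑ β ∈ J, h β‖ ≤ 3 / 4 * ((n : ℝ) + 2) := by
      rw [ContinuousMap.norm_le _ (by positivity)]
      intro t
      rw [ContinuousMap.coe_sum, Finset.sum_apply, Real.norm_eq_abs]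
      by_cases hc : 3 * ((n : ℝ) + 2) < 4 * cnt J t
      · have : ∑ β ∈ J, (h β) t = 0 := Finset.sum_eq_zero fun β hβ => (hh β hβ).2.1 t hc
        rw [this]
        simp only [abs_zero]
        positivity
      · push Not at hc
        refine (Finset.abs_sum_le_sum_abs _ _).trans ?_
        refine (Finset.sum_le_sum fun β hβ => (hh β hβ).1 t).trans ?_
        have : ∑ β ∈ J, coord (Sum.inl β) t = cnt J t := rfl
        rw [this]
        linarith
    have := (le_abs_self _).trans (hf n (∑ β ∈ J, h β))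
    linarith
  obtain ⟨α, hα⟩ := key
  choose J hJc hJ using hα
  set Js : Seqs ι := ⟨J, hJc⟩ with hJs
  set g : C(L ι, ℝ) := coord (Sum.inl α) * coord (Sum.inr Js) with hg
  have hg1 : ∀ n, |f n g| ≤ 3 / 4 := by
    intro n
    refine hJ n g (fun t => ?_) fun t ht => ?_
    · rw [hg, ContinuousMap.mul_apply, abs_mul, abs_of_nonneg (coord_nonneg _ t),
        abs_of_nonneg (coord_nonneg _ t)]
      exact mul_le_of_le_one_right (coord_nonneg _ t) (coord_le_one _ t)
    · have h1 := thin_closed Js n t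
      have h2 : coord (Sum.inr Js) t = 0 := by
        refine le_antisymm ?_ (coord_nonneg _ t)
        by_contra hlt
        push Not at hlt
        have : 0 < coord (Sum.inr Js) t * (4 * cnt (Js.1 n) t - 3 * (n + 2)) :=
          mul_pos hlt (by linarith)
        linarith
      rw [hg, ContinuousMap.mul_apply, h2, mul_zero]
  have hthin : Thin ({α} : Finset ι) Js := by
    intro n
    have : (({α} : Finset ι) ∩ Js.1 n).card ≤ 1 :=
      (Finset.card_le_card Finset.inter_subset_left).trans (by simp)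
    omega
  have hgval : g (val {α}) = 1 := by
    rw [hg, ContinuousMap.mul_apply, coord_inr_pos hthin, coord_apply,
      if_pos ((val_inl {α} α).2 (Finset.mem_singleton_self α)), mul_one]
  -- the evaluation functional
  set ψ : WeakDual ℝ C(L ι, ℝ) :=
    StrongDual.toWeakDual (ContinuousMap.evalCLM ℝ (val {α} : L ι)) with hψ
  have hψapp : ∀ x : C(L ι, ℝ), ψ x = x (val {α}) := fun x => rfl
  have hψB : ψ ∈ dualBall C(L ι, ℝ) := fun x => by
    rw [hψapp]; exact x.norm_coe_le_norm _
  have hclosed : IsClosed {φ : WeakDual ℝ C(L ι, ℝ) | |φ g| ≤ 3 / 4} :=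
    isClosed_le (WeakDual.eval_continuous g).abs continuous_const
  have hsub : Set.range f ⊆ {φ : WeakDual ℝ C(L ι, ℝ) | |φ g| ≤ 3 / 4} := by
    rintro _ ⟨n, rfl⟩
    exact hg1 n
  have hmem : |ψ g| ≤ 3 / 4 := closure_minimal hsub hclosed (hcl hψB)
  rw [hψapp, hgval] at hmem
  norm_num at hmem

end

end Pool.Agent.H62.BM
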