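import Pool.Agent.H62.BM.Av

open Finset

namespace Pool.Agent.H62.BM

set_option linter.unusedSectionVars false

variable {ι : Type*} [DecidableEq ι]

open scoped Classical in
/-- The part of the finite set `F` inside the set `P`. -/
noncomputable def fil (F : Finset ι) (P : Set ι) : Finset ι := F.filter (fun x => x ∈ P)

theorem mem_fil {F : Finset ι} {P : Set ι} {x : ι} : x ∈ fil F P ↔ x ∈ F ∧ x ∈ P := by
  simp [fil]

theorem fil_empty (F : Finset ι) : fil F (∅ : Set ι) = ∅ := by
  ext x; simp [mem_fil]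

/-- Iterated extrapolation: for a set function `a`, `extrap a l B` replaces, successively for the
sets of the list `l`, the value (each point kept with probability `1/16`) by the value
(each point kept). -/
noncomputable def extrap (a : Set ι → ℝ) : List (Set ι) → Set ι → ℝ
  | [], B => a B
  | P :: l, B => 16 * (extrap a l (B ∪ P) - 15 / 16 * extrap a l B)

theorem extrap_lip {a b : Set ι → ℝ} {ε : ℝ} (h : ∀ P, |a P - b P| ≤ ε) (l : List (Set ι))
    (B : Set ι) : |extrap a l B - extrap b l B| ≤ 31 ^ l.length * ε := by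
  induction l generalizing B with
  | nil => simpa [extrap] using h B
  | cons P l ih =>
    have h1 := abs_le.1 (ih (B ∪ P))
    have h2 := abs_le.1 (ih B)
    have h3 : (31 : ℝ) ^ (P :: l).length * ε = 31 * (31 ^ l.length * ε) := by
      rw [List.length_cons, pow_succ]; ring
    rw [h3, abs_le]
    simp only [extrap]
    constructor <;> linarith [h1.1, h1.2, h2.1, h2.2]

theorem extrap_av (F : Finset ι) (φ : Finset ι → ℝ) (l : List (Set ι)) (B : Set ι)
    (hl : l.Pairwise Disjoint) (hB : ∀ P ∈ l, Disjoint P B)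
    (h1 : ∀ P ∈ l, ∀ x ∈ F, ∀ y ∈ F, x ∈ P → y ∈ P → x = y) :
    extrap (fun P => av (fil F P) φ) l B =
      av (fil F B) (fun T => φ (T ∪ fil F {x | ∃ P ∈ l, x ∈ P})) := by
  induction l generalizing B with
  | nil => simp [extrap, fil]
  | cons P l ih =>
    have hlP := List.pairwise_cons.1 hl
    have e1 := ih (B ∪ P) hlP.2
      (fun Q hQ => Set.disjoint_union_right.2
        ⟨hB Q (List.mem_cons_of_mem _ hQ), (hlP.1 Q hQ).symm⟩)
      (fun Q hQ => h1 Q (List.mem_cons_of_mem _ hQ))
    have e2 := ih B hlP.2 (fun Q hQ => hB Q (List.mem_cons_of_mem _ hQ))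
      (fun Q hQ => h1 Q (List.mem_cons_of_mem _ hQ))
    simp only [extrap]
    rw [e1, e2]
    by_cases hne : ∃ α ∈ F, α ∈ P
    · obtain ⟨α, hαF, hαP⟩ := hne
      have hαB : α ∉ B := fun h =>
        Set.disjoint_left.1 (hB P List.mem_cons_self) hαP h
      have f1 : fil F (B ∪ P) = insert α (fil F B) := by
        ext x
        simp only [mem_fil, Set.mem_union, Finset.mem_insert]
        constructor
        · rintro ⟨hx, hxB | hxP⟩
          · exact Or.inr ⟨hx, hxB⟩
          · exact Or.inl (h1 P List.mem_cons_self x hx α hαF hxP hαP)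
        · rintro (rfl | ⟨hx, hxB⟩)
          · exact ⟨hαF, Or.inr hαP⟩
          · exact ⟨hx, Or.inl hxB⟩
      have hα' : α ∉ fil F B := by simp [mem_fil, hαB]
      have f2 : fil F {x | ∃ Q ∈ P :: l, x ∈ Q} =
          insert α (fil F {x | ∃ Q ∈ l, x ∈ Q}) := by
        ext x
        simp only [mem_fil, Finset.mem_insert, List.mem_cons, Set.mem_setOf_eq]
        constructor
        · rintro ⟨hx, Q, rfl | hQ, hxQ⟩
          · exact Or.inl (h1 Q List.mem_cons_self x hx α hαF hxQ hαP)
          · exact Or.inr ⟨hx, Q, hQ, hxQ⟩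
        · rintro (rfl | ⟨hx, Q, hQ, hxQ⟩)
          · exact ⟨hαF, P, Or.inl rfl, hαP⟩
          · exact ⟨hx, Q, Or.inr hQ, hxQ⟩
      rw [f1, av_insert hα', f2]
      have f3 : (fun T : Finset ι => φ (insert α T ∪ fil F {x | ∃ Q ∈ l, x ∈ Q})) =
          fun T => φ (T ∪ insert α (fil F {x | ∃ Q ∈ l, x ∈ Q})) := by
        funext T
        rw [Finset.insert_union, Finset.union_insert]
      rw [f3]
      ring
    · have f1 : fil F (B ∪ P) = fil F B := by
        ext x
        simp only [mem_fil, Set.mem_union]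
        constructor
        · rintro ⟨hx, hxB | hxP⟩
          · exact ⟨hx, hxB⟩
          · exact absurd ⟨x, hx, hxP⟩ hne
        · rintro ⟨hx, hxB⟩
          exact ⟨hx, Or.inl hxB⟩
      have f2 : fil F {x | ∃ Q ∈ P :: l, x ∈ Q} = fil F {x | ∃ Q ∈ l, x ∈ Q} := by
        ext x
        simp only [mem_fil, List.mem_cons, Set.mem_setOf_eq]
        constructor
        · rintro ⟨hx, Q, rfl | hQ, hxQ⟩
          · exact absurd ⟨x, hx, hxQ⟩ hne
          · exact ⟨hx, Q, hQ, hxQ⟩
        · rintro ⟨hx, Q, hQ, hxQ⟩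
          exact ⟨hx, Q, Or.inr hQ, hxQ⟩
      rw [f1, f2]
      ring

/-- Extrapolating a finite average from `∅` along a list of pairwise disjoint sets that separate
the points of `F` gives a value of `φ`. -/
theorem extrap_av_empty (F : Finset ι) (φ : Finset ι → ℝ) (l : List (Set ι))
    (hl : l.Pairwise Disjoint)
    (h1 : ∀ P ∈ l, ∀ x ∈ F, ∀ y ∈ F, x ∈ P → y ∈ P → x = y) :
    extrap (fun P => av (fil F P) φ) l ∅ = φ (fil F {x | ∃ P ∈ l, x ∈ P}) := by
  rw [extrap_av F φ l ∅ hl (fun P _ => Set.disjoint_empty P) h1, fil_empty]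
  simp [av_empty]

end Pool.Agent.H62.BM
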