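import Pool.Agent.H62.BM.Space

open Finset Filter Topology

namespace Pool.Agent.H62.BM

set_option linter.unusedSectionVars false

variable {ι : Type} [DecidableEq ι]

theorem fil_inter {F F' : Finset ι} (h : F ⊆ F') (P : Set ι) : fil F' P ∩ F = fil F P := by
  ext x
  simp only [Finset.mem_inter, mem_fil]
  exact ⟨fun hx => ⟨hx.2, hx.1.2⟩, fun hx => ⟨⟨h hx.1, hx.2⟩, hx.1⟩⟩

/-- The finite averages of `g` over random subsets of `F` inside `P`. -/
noncomputable def fav (g : C(L ι, ℝ)) (F : Finset ι) (P : Set ι) : ℝ :=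
  av (fil F P) (fun T => g (val T))

theorem fav_approx (g : C(L ι, ℝ)) {ε : ℝ} (hε : 0 < ε) :
    ∃ F₀ : Finset ι, ∀ F : Finset ι, F₀ ⊆ F → ∀ F' : Finset ι, F ⊆ F' → ∀ P : Set ι,
      |fav g F' P - fav g F P| ≤ ε := by
  obtain ⟨F₀, h⟩ := good_all g ε hε
  refine ⟨F₀, fun F hF F' hF' P => ?_⟩
  have h1 : fav g F P = av (fil F' P) (fun T => g (val (T ∩ F))) := by
    unfold fav
    rw [av_inter (fil F' P) F (fun T => g (val T)), fil_inter hF']
  rw [h1]
  unfold fav
  rw [← av_sub]
  exact (abs_av_le _ _).trans (h F hF _)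

theorem fav_cauchy (g : C(L ι, ℝ)) (P : Set ι) : CauchySeq (fun F : Finset ι => fav g F P) := by
  rw [Metric.cauchySeq_iff']
  intro ε hε
  obtain ⟨F₀, h⟩ := fav_approx g (half_pos hε)
  refine ⟨F₀, fun F hF => ?_⟩
  rw [Real.dist_eq]
  exact (h F₀ (Finset.Subset.refl _) F hF P).trans_lt (half_lt_self hε)

/-- The limit functional attached to the set `P`. -/
noncomputable def lam (P : Set ι) (g : C(L ι, ℝ)) : ℝ :=
  limUnder atTop (fun F : Finset ι => fav g F P)

theorem lam_tendsto (P : Set ι) (g : C(L ι, ℝ)) :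
    Tendsto (fun F : Finset ι => fav g F P) atTop (𝓝 (lam P g)) :=
  (fav_cauchy g P).tendsto_limUnder

theorem lam_approx (g : C(L ι, ℝ)) {ε : ℝ} (hε : 0 < ε) :
    ∃ F₀ : Finset ι, ∀ F : Finset ι, F₀ ⊆ F → ∀ P : Set ι, |lam P g - fav g F P| ≤ ε := by
  obtain ⟨F₀, h⟩ := fav_approx g hε
  refine ⟨F₀, fun F hF P => ?_⟩
  have ht : Tendsto (fun F' : Finset ι => |fav g F' P - fav g F P|) atTop
      (𝓝 |lam P g - fav g F P|) := ((lam_tendsto P g).sub_const _).abs
  refine le_of_tendsto ht ?_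
  filter_upwards [Filter.eventually_ge_atTop F] with F' hF'
  exact h F hF F' hF' P

theorem lam_add (P : Set ι) (g h : C(L ι, ℝ)) : lam P (g + h) = lam P g + lam P h := by
  refine tendsto_nhds_unique (lam_tendsto P (g + h)) ?_
  refine ((lam_tendsto P g).add (lam_tendsto P h)).congr fun F => ?_
  unfold fav
  rw [← av_add]
  rfl

theorem lam_smul (P : Set ι) (c : ℝ) (g : C(L ι, ℝ)) : lam P (c • g) = c * lam P g := by
  refine tendsto_nhds_unique (lam_tendsto P (c • g)) ?_
  refine ((lam_tendsto P g).const_mul c).congr fun F => ?_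
  unfold fav
  rw [← av_mul_left]
  rfl

theorem lam_le (P : Set ι) (g : C(L ι, ℝ)) : |lam P g| ≤ ‖g‖ := by
  refine le_of_tendsto (lam_tendsto P g).abs (Eventually.of_forall fun F => ?_)
  unfold fav
  refine (abs_av_le _ _).trans ?_
  refine (av_mono (ψ := fun _ => ‖g‖) fun T _ => g.norm_coe_le_norm _).trans ?_
  rw [av_const]

/-- The functional as an element of the dual space. -/
noncomputable def lamL (P : Set ι) : C(L ι, ℝ) →L[ℝ] ℝ :=
  LinearMap.mkContinuous
    { toFun := lam P
      map_add' := lam_add P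
      map_smul' := fun c g => by simp [lam_smul] } 1
    (fun g => by simpa using lam_le P g)

theorem lamL_apply (P : Set ι) (g : C(L ι, ℝ)) : lamL P g = lam P g := rfl

/-- The index set: the Cantor set. -/
abbrev I : Type := ℕ → Bool

/-- The first `m` entries. -/
def res (m : ℕ) (x : I) : Fin m → Bool := fun i => x i

/-- The cylinder sets. -/
def cyl (m : ℕ) (s : Fin m → Bool) : Set I := {x | res m x = s}

theorem exists_sep (F : Finset I) :
    ∃ M : ℕ, ∀ m, M ≤ m → ∀ x ∈ F, ∀ y ∈ F, res m x = res m y → x = y := by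
  have h : ∀ p : I × I, ∃ d : ℕ, p.1 ≠ p.2 → p.1 d ≠ p.2 d := by
    intro p
    by_cases hp : p.1 = p.2
    · exact ⟨0, fun h => absurd hp h⟩
    · obtain ⟨d, hd⟩ := Function.ne_iff.1 hp
      exact ⟨d, fun _ => hd⟩
  choose d hd using h
  refine ⟨(F ×ˢ F).sup d + 1, fun m hm x hx y hy hxy => ?_⟩
  by_contra hne
  have h1 := hd (x, y) hne
  have h2 : d (x, y) ≤ (F ×ˢ F).sup d := Finset.le_sup (Finset.mk_mem_product hx hy)
  have h3 : d (x, y) < m := by omega
  exact h1 (congrFun hxy ⟨d (x, y), h3⟩)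

section
variable [DecidableEq I]

/-- The countable family of extrapolated functionals. -/
noncomputable def E (m : ℕ) (l : List (Fin m → Bool)) (g : C(L I, ℝ)) : ℝ :=
  extrap (fun P => lam P g) (l.map (cyl m)) ∅

theorem cyl_pairwise {m : ℕ} {l : List (Fin m → Bool)} (hl : l.Nodup) :
    (l.map (cyl m)).Pairwise Disjoint := by
  rw [List.pairwise_map]
  refine hl.imp fun {a b} hab => ?_
  rw [Set.disjoint_left]
  intro x hx hx'
  exact hab (hx.symm.trans hx')

theorem E_approx (g : C(L I, ℝ)) {F : Finset I} {ε : ℝ}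
    (hF : ∀ P : Set I, |lam P g - fav g F P| ≤ ε) {m : ℕ}
    (hm : ∀ x ∈ F, ∀ y ∈ F, res m x = res m y → x = y)
    {l : List (Fin m → Bool)} (hl : l.Nodup) :
    |E m l g - g (val (fil F {x | res m x ∈ l}))| ≤ 31 ^ l.length * ε := by
  have h1 := extrap_lip hF (l.map (cyl m)) ∅
  have h2 : extrap (fun P => fav g F P) (l.map (cyl m)) ∅ =
      g (val (fil F {x | ∃ P ∈ l.map (cyl m), x ∈ P})) := by
    unfold fav
    rw [extrap_av_empty F (fun T => g (val T)) _ (cyl_pairwise hl)]
    intro P hP x hx y hy hxP hyP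
    obtain ⟨s, -, rfl⟩ := List.mem_map.1 hP
    exact hm x hx y hy (hxP.trans hyP.symm)
  have h3 : {x : I | ∃ P ∈ l.map (cyl m), x ∈ P} = {x | res m x ∈ l} := by
    ext x
    constructor
    · rintro ⟨P, hP, hxP⟩
      obtain ⟨s, hs, rfl⟩ := List.mem_map.1 hP
      have : res m x = s := hxP
      rw [← this] at hs
      exact hs
    · intro hx
      exact ⟨cyl m (res m x), List.mem_map.2 ⟨_, hx, rfl⟩, rfl⟩
  rw [h2, h3, List.length_map] at h1
  exact h1

theorem norm_iff (g : C(L I, ℝ)) {r : ℝ} (hr : 0 ≤ r) :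
    ‖g‖ ≤ r ↔ ∀ q k : ℕ, ∃ M : ℕ, ∀ m : ℕ, M ≤ m → ∀ l : List (Fin m → Bool),
      l.Nodup → l.length ≤ q → |E m l g| ≤ r + 1 / (k + 1) := by
  constructor
  · intro hg q k
    have hk : (0 : ℝ) < 1 / (k + 1) := by positivity
    obtain ⟨F₀, h0⟩ := lam_approx g (show (0 : ℝ) < 1 / (k + 1) / 31 ^ q by positivity)
    obtain ⟨M, hM⟩ := exists_sep F₀
    refine ⟨M, fun m hm l hl hlq => ?_⟩
    have h1 := E_approx g (h0 F₀ (Finset.Subset.refl _)) (hM m hm) hl
    have h2 : |g (val (fil F₀ {x | res m x ∈ l}))| ≤ r := (g.norm_coe_le_norm _).trans hg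
    have h3 : (31 : ℝ) ^ l.length * (1 / (k + 1) / 31 ^ q) ≤ 1 / (k + 1) := by
      have h31 : (31 : ℝ) ^ l.length ≤ 31 ^ q := pow_le_pow_right₀ (by norm_num) hlq
      calc (31 : ℝ) ^ l.length * (1 / (k + 1) / 31 ^ q) ≤ 31 ^ q * (1 / (k + 1) / 31 ^ q) :=
            mul_le_mul_of_nonneg_right h31 (by positivity)
        _ = 1 / (k + 1) := by field_simp
    have h4 := abs_sub_abs_le_abs_sub (E m l g) (g (val (fil F₀ {x | res m x ∈ l})))
    linarith
  · intro h
    refine norm_le_of_val hr fun T => ?_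
    have hmain : ∀ k : ℕ, |g (val T)| ≤ r + 2 * (1 / ((k : ℝ) + 1)) := by
      intro k
      obtain ⟨M₁, hM₁⟩ := h T.card k
      obtain ⟨F₀, h0⟩ := lam_approx g
        (show (0 : ℝ) < 1 / ((k : ℝ) + 1) / 31 ^ T.card by positivity)
      obtain ⟨M₂, hM₂⟩ := exists_sep (F₀ ∪ T)
      set m := max M₁ M₂ with hm
      have hinj := hM₂ m (le_max_right _ _)
      set l : List (Fin m → Bool) := T.toList.map (res m) with hl
      have hnd : l.Nodup := by
        refine List.Nodup.map_on ?_ T.nodup_toList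
        intro x hx y hy hxy
        exact hinj x (Finset.mem_union_right _ (Finset.mem_toList.1 hx)) y
          (Finset.mem_union_right _ (Finset.mem_toList.1 hy)) hxy
      have hlen : l.length = T.card := by simp [hl]
      have h1 := E_approx g (h0 (F₀ ∪ T) Finset.subset_union_left) hinj hnd
      have h2 : fil (F₀ ∪ T) {x | res m x ∈ l} = T := by
        ext x
        rw [mem_fil]
        constructor
        · rintro ⟨hx, hxl⟩
          have hxl' : res m x ∈ T.toList.map (res m) := hxl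
          obtain ⟨y, hy, hyx⟩ := List.mem_map.1 hxl'
          have hyT := Finset.mem_toList.1 hy
          rw [← hinj y (Finset.mem_union_right _ hyT) x hx hyx]
          exact hyT
        · intro hx
          exact ⟨Finset.mem_union_right _ hx,
            List.mem_map.2 ⟨x, Finset.mem_toList.2 hx, rfl⟩⟩
      rw [h2, hlen] at h1
      have h3 := hM₁ m (le_max_left _ _) l hnd hlen.le
      have h4 : (31 : ℝ) ^ T.card * (1 / ((k : ℝ) + 1) / 31 ^ T.card) = 1 / ((k : ℝ) + 1) := by
        field_simp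
      rw [h4] at h1
      have h5 := abs_sub_abs_le_abs_sub (g (val T)) (E m l g)
      rw [abs_sub_comm] at h5
      linarith
    have hlim : Tendsto (fun k : ℕ => r + 2 * (1 / ((k : ℝ) + 1))) atTop (𝓝 (r + 2 * 0)) :=
      (tendsto_one_div_add_atTop_nhds_zero_nat.const_mul 2).const_add r
    have := ge_of_tendsto' hlim hmain
    simpa using this

end

theorem meas_extrap {X : Type*} [MeasurableSpace X] {κ : Type*} (a : Set κ → X → ℝ)
    (ha : ∀ P, Measurable (a P)) (l : List (Set κ)) (B : Set κ) :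
    Measurable (fun x => extrap (fun P => a P x) l B) := by
  induction l generalizing B with
  | nil => simpa [extrap] using ha B
  | cons P l ih =>
    simp only [extrap]
    exact ((ih (B ∪ P)).sub ((ih B).const_mul _)).const_mul _

end Pool.Agent.H62.BM
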