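import Pool.Agent.H62.BM.Ext

open Finset

namespace Pool.Agent.H62.BM

set_option linter.unusedSectionVars false

variable (ι : Type) [DecidableEq ι]

/-- Sequences `(J n)` of finite subsets of `ι` with `|J n| = n + 2`. -/
abbrev Seqs : Type := {J : ℕ → Finset ι // ∀ n, (J n).card = n + 2}

variable {ι}

/-- A finite set `T` is thin for `J` if it meets every `J n` in at most three quarters of it. -/
def Thin (T : Finset ι) (J : Seqs ι) : Prop := ∀ n, 4 * (T ∩ J.1 n).card ≤ 3 * (n + 2)

open scoped Classical in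
/-- The point of the product attached to a finite set `T`. -/
noncomputable def pt (T : Finset ι) : ι ⊕ Seqs ι → Bool :=
  Sum.elim (fun α => decide (α ∈ T)) (fun J => decide (Thin T J))

variable (ι) in
/-- The compact space: the closure of all points `pt T`, `T` finite. -/
def LSet : Set (ι ⊕ Seqs ι → Bool) := closure (Set.range pt)

variable (ι) in
/-- The compact space as a type. -/
abbrev L : Type := LSet ι

instance : CompactSpace (L ι) :=
  isCompact_iff_compactSpace.1 (isClosed_closure.isCompact)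

/-- The point of `L` attached to `T`. -/
noncomputable def val (T : Finset ι) : L ι := ⟨pt T, subset_closure ⟨T, rfl⟩⟩

theorem dense_val : DenseRange (val : Finset ι → L ι) := by
  intro x
  rw [closure_subtype]
  have h : ((↑) : L ι → ι ⊕ Seqs ι → Bool) '' Set.range val = Set.range pt := by
    ext y
    constructor
    · rintro ⟨_, ⟨T, rfl⟩, rfl⟩
      exact ⟨T, rfl⟩
    · rintro ⟨T, rfl⟩
      exact ⟨val T, ⟨T, rfl⟩, rfl⟩
  rw [h]
  exact x.2

theorem val_inl (T : Finset ι) (α : ι) : (val T).1 (Sum.inl α) = true ↔ α ∈ T := by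
  simp [val, pt]

theorem val_inr (T : Finset ι) (J : Seqs ι) : (val T).1 (Sum.inr J) = true ↔ Thin T J := by
  simp [val, pt]

/-- The coordinate functions. -/
noncomputable def coord (i : ι ⊕ Seqs ι) : C(L ι, ℝ) where
  toFun t := if t.1 i = true then 1 else 0
  continuous_toFun := by
    have h1 : Continuous (fun b : Bool => if b = true then (1 : ℝ) else 0) :=
      continuous_of_discreteTopology
    exact h1.comp ((continuous_apply i).comp continuous_subtype_val)

theorem coord_apply (i : ι ⊕ Seqs ι) (t : L ι) : coord i t = if t.1 i = true then 1 else 0 := rfl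

theorem coord_inr_pos {T : Finset ι} {J : Seqs ι} (h : Thin T J) :
    coord (Sum.inr J) (val T) = 1 := by
  rw [coord_apply, if_pos ((val_inr T J).2 h)]

theorem coord_inr_neg {T : Finset ι} {J : Seqs ι} (h : ¬ Thin T J) :
    coord (Sum.inr J) (val T) = 0 := by
  rw [coord_apply, if_neg fun h' => h ((val_inr T J).1 h')]

/-- The norm is computed on the points of finite sets. -/
theorem norm_le_of_val {g : C(L ι, ℝ)} {r : ℝ} (hr : 0 ≤ r)
    (h : ∀ T : Finset ι, |g (val T)| ≤ r) : ‖g‖ ≤ r := by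
  rw [ContinuousMap.norm_le _ hr]
  intro x
  have hc : IsClosed {t : L ι | ‖g t‖ ≤ r} := isClosed_le (g.continuous.norm) continuous_const
  have hd : x ∈ closure (Set.range (val : Finset ι → L ι)) := dense_val x
  have hsub : Set.range (val : Finset ι → L ι) ⊆ {t : L ι | ‖g t‖ ≤ r} := by
    rintro _ ⟨T, rfl⟩
    exact h T
  exact closure_minimal hsub hc hd

/-- The approximation property of functions on `L`. -/
def Good (g : C(L ι, ℝ)) : Prop :=
  ∀ ε : ℝ, 0 < ε → ∃ F₀ : Finset ι, ∀ F : Finset ι, F₀ ⊆ F → ∀ S : Finset ι,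
    av S (fun T => |g (val T) - g (val (T ∩ F))|) ≤ ε

theorem good_const (c : ℝ) : Good (algebraMap ℝ C(L ι, ℝ) c) := by
  intro ε hε
  refine ⟨∅, fun F _ S => ?_⟩
  have h : (fun T : Finset ι => |(algebraMap ℝ C(L ι, ℝ) c) (val T) -
      (algebraMap ℝ C(L ι, ℝ) c) (val (T ∩ F))|) = fun _ => 0 := by
    funext T; simp
  rw [h, av_const]
  exact hε.le

theorem good_add {g h : C(L ι, ℝ)} (hg : Good g) (hh : Good h) : Good (g + h) := by
  intro ε hε
  obtain ⟨F₁, h1⟩ := hg (ε / 2) (by positivity)
  obtain ⟨F₂, h2⟩ := hh (ε / 2) (by positivity)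
  refine ⟨F₁ ∪ F₂, fun F hF S => ?_⟩
  have e1 := h1 F (Finset.union_subset_left hF) S
  have e2 := h2 F (Finset.union_subset_right hF) S
  refine (av_mono (ψ := fun T => |g (val T) - g (val (T ∩ F))| +
    |h (val T) - h (val (T ∩ F))|) fun T _ => ?_).trans ?_
  · have : (g + h) (val T) - (g + h) (val (T ∩ F)) =
        (g (val T) - g (val (T ∩ F))) + (h (val T) - h (val (T ∩ F))) := by
      simp only [ContinuousMap.add_apply]; ring
    rw [this]
    exact abs_add_le _ _
  · rw [av_add]
    linarith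

theorem good_mul {g h : C(L ι, ℝ)} (hg : Good g) (hh : Good h) : Good (g * h) := by
  intro ε hε
  set K : ℝ := ‖g‖ + ‖h‖ + 1 with hK
  have hg0 := norm_nonneg g
  have hh0 := norm_nonneg h
  have hKpos : 0 < K := by positivity
  obtain ⟨F₁, h1⟩ := hg (ε / (2 * K)) (by positivity)
  obtain ⟨F₂, h2⟩ := hh (ε / (2 * K)) (by positivity)
  refine ⟨F₁ ∪ F₂, fun F hF S => ?_⟩
  have e1 := h1 F (Finset.union_subset_left hF) S
  have e2 := h2 F (Finset.union_subset_right hF) S
  refine (av_mono (ψ := fun T => K * |g (val T) - g (val (T ∩ F))| +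
    K * |h (val T) - h (val (T ∩ F))|) fun T _ => ?_).trans ?_
  · have e : (g * h) (val T) - (g * h) (val (T ∩ F)) =
        (g (val T) - g (val (T ∩ F))) * h (val T) +
          g (val (T ∩ F)) * (h (val T) - h (val (T ∩ F))) := by
      simp only [ContinuousMap.mul_apply]; ring
    rw [e]
    refine (abs_add_le _ _).trans ?_
    rw [abs_mul, abs_mul]
    have b1 : |h (val T)| ≤ K := (h.norm_coe_le_norm _).trans (by linarith)
    have b2 : |g (val (T ∩ F))| ≤ K := (g.norm_coe_le_norm _).trans (by linarith)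
    have := mul_le_mul_of_nonneg_left b1 (abs_nonneg (g (val T) - g (val (T ∩ F))))
    have := mul_le_mul_of_nonneg_right b2 (abs_nonneg (h (val T) - h (val (T ∩ F))))
    linarith
  · rw [av_add, av_mul_left, av_mul_left]
    have e3 : K * (ε / (2 * K)) = ε / 2 := by field_simp
    have := mul_le_mul_of_nonneg_left e1 hKpos.le
    have := mul_le_mul_of_nonneg_left e2 hKpos.le
    linarith

theorem good_closure {g : C(L ι, ℝ)} (hg : ∀ ε : ℝ, 0 < ε → ∃ h, Good h ∧ ‖g - h‖ ≤ ε) :
    Good g := by
  intro ε hε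
  obtain ⟨h, hh, hgh⟩ := hg (ε / 4) (by positivity)
  obtain ⟨F₀, h1⟩ := hh (ε / 2) (by positivity)
  refine ⟨F₀, fun F hF S => ?_⟩
  have e1 := h1 F hF S
  refine (av_mono (ψ := fun T => |h (val T) - h (val (T ∩ F))| + ε / 2) fun T _ => ?_).trans ?_
  · have b1 : |g (val T) - h (val T)| ≤ ε / 4 := ((g - h).norm_coe_le_norm _).trans hgh
    have b2 : |g (val (T ∩ F)) - h (val (T ∩ F))| ≤ ε / 4 :=
      ((g - h).norm_coe_le_norm _).trans hgh
    have e : g (val T) - g (val (T ∩ F)) = (h (val T) - h (val (T ∩ F))) +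
      ((g (val T) - h (val T)) - (g (val (T ∩ F)) - h (val (T ∩ F)))) := by ring
    rw [e]
    refine (abs_add_le _ _).trans ?_
    have := abs_sub (g (val T) - h (val T)) (g (val (T ∩ F)) - h (val (T ∩ F)))
    linarith
  · rw [av_add, av_const]
    linarith

theorem good_coord_inl (α : ι) : Good (coord (Sum.inl α)) := by
  intro ε hε
  refine ⟨{α}, fun F hF S => ?_⟩
  have hα : α ∈ F := hF (Finset.mem_singleton_self α)
  have h : (fun T : Finset ι => |coord (Sum.inl α) (val T) -
      coord (Sum.inl α) (val (T ∩ F))|) = fun _ => 0 := by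
    funext T
    rw [coord_apply, coord_apply]
    have : ((val T).1 (Sum.inl α) = true) ↔ ((val (T ∩ F)).1 (Sum.inl α) = true) := by
      rw [val_inl, val_inl, Finset.mem_inter]
      exact ⟨fun h => ⟨h, hα⟩, fun h => h.1⟩
    by_cases hT : (val T).1 (Sum.inl α) = true
    · rw [if_pos hT, if_pos (this.1 hT)]; simp
    · rw [if_neg hT, if_neg fun h' => hT (this.2 h')]; simp
  rw [h, av_const]
  exact hε.le

theorem good_coord_inr (J : Seqs ι) : Good (coord (Sum.inr J)) := by
  intro ε hε
  -- choose `N` with a small tail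
  obtain ⟨N, hN⟩ : ∃ N : ℕ, (1 / 4 : ℝ) ^ N < ε := exists_pow_lt_of_lt_one hε (by norm_num)
  refine ⟨(Finset.range N).biUnion J.1, fun F hF S => ?_⟩
  set M : ℕ := 2 * S.card + N with hM
  have hb : ∀ T ⊆ S, |coord (Sum.inr J) (val T) - coord (Sum.inr J) (val (T ∩ F))| ≤
      ∑ n ∈ Finset.Ico N M, (1 / 8 : ℝ) ^ (n + 2) * (16 : ℝ) ^ (T ∩ J.1 n).card := by
    intro T hT
    have hnonneg : 0 ≤ ∑ n ∈ Finset.Ico N M, (1 / 8 : ℝ) ^ (n + 2) *
        (16 : ℝ) ^ (T ∩ J.1 n).card := Finset.sum_nonneg fun n _ => by positivity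
    by_cases h1 : Thin T J
    · have h2 : Thin (T ∩ F) J := fun n =>
        (Nat.mul_le_mul_left 4 (Finset.card_le_card
          (Finset.inter_subset_inter Finset.inter_subset_left (Finset.Subset.refl _)))).trans (h1 n)
      rw [coord_inr_pos h1, coord_inr_pos h2]
      simpa using hnonneg
    · by_cases h2 : Thin (T ∩ F) J
      · rw [coord_inr_neg h1, coord_inr_pos h2]
        unfold Thin at h1
        push Not at h1
        obtain ⟨n, hn⟩ := h1
        have hnN : N ≤ n := by
          by_contra hlt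
          push Not at hlt
          have hsub : J.1 n ⊆ F := (Finset.subset_biUnion_of_mem J.1
            (Finset.mem_range.2 hlt)).trans hF
          have := h2 n
          rw [Finset.inter_assoc, Finset.inter_eq_right.2 hsub] at this
          omega
        have hnM : n < M := by
          have c1 : (T ∩ J.1 n).card ≤ S.card :=
            Finset.card_le_card (Finset.inter_subset_left.trans hT)
          omega
        have hterm : (1 : ℝ) ≤ (1 / 8 : ℝ) ^ (n + 2) * (16 : ℝ) ^ (T ∩ J.1 n).card := by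
          have e1 : (16 : ℝ) ^ (T ∩ J.1 n).card = 2 ^ (4 * (T ∩ J.1 n).card) := by
            rw [pow_mul]; norm_num
          have e2 : (1 / 8 : ℝ) ^ (n + 2) * 2 ^ (3 * (n + 2)) = 1 := by
            rw [pow_mul, ← mul_pow]; norm_num
          calc (1 : ℝ) = (1 / 8 : ℝ) ^ (n + 2) * 2 ^ (3 * (n + 2)) := e2.symm
            _ ≤ (1 / 8 : ℝ) ^ (n + 2) * 2 ^ (4 * (T ∩ J.1 n).card) :=
              mul_le_mul_of_nonneg_left (pow_le_pow_right₀ (by norm_num) hn.le) (by positivity)
            _ = (1 / 8 : ℝ) ^ (n + 2) * (16 : ℝ) ^ (T ∩ J.1 n).card := by rw [e1]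
        have hsingle := Finset.single_le_sum (f := fun n => (1 / 8 : ℝ) ^ (n + 2) *
          (16 : ℝ) ^ (T ∩ J.1 n).card) (fun i _ => by positivity)
          (Finset.mem_Ico.2 ⟨hnN, hnM⟩)
        have : |(0 : ℝ) - 1| = 1 := by norm_num
        rw [this]
        exact hterm.trans hsingle
      · rw [coord_inr_neg h1, coord_inr_neg h2]
        simpa using hnonneg
  refine (av_mono hb).trans ?_
  rw [av_sum]
  have hc : ∀ n ∈ Finset.Ico N M, av S (fun T => (1 / 8 : ℝ) ^ (n + 2) *
      (16 : ℝ) ^ (T ∩ J.1 n).card) ≤ (1 / 4 : ℝ) ^ n * (1 / 16) := by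
    intro n _
    rw [av_mul_left]
    have h1 := av_exp S (J.1 n)
    rw [J.2 n] at h1
    have h2 := mul_le_mul_of_nonneg_left h1 (show (0 : ℝ) ≤ (1 / 8) ^ (n + 2) by positivity)
    refine h2.trans (le_of_eq ?_)
    rw [← mul_pow, pow_add]
    norm_num
  refine (Finset.sum_le_sum hc).trans ?_
  rw [← Finset.sum_mul]
  have h3 := geom_sum_Ico_le_of_lt_one (x := (1 / 4 : ℝ)) (m := N) (n := M) (by norm_num)
    (by norm_num)
  have h4 : (0 : ℝ) < (1 / 4) ^ N := by positivity
  have h5 : (1 / 4 : ℝ) ^ N / (1 - 1 / 4) = 4 / 3 * (1 / 4) ^ N := by ring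
  rw [h5] at h3
  nlinarith

variable (ι) in
/-- The subalgebra of good functions. -/
noncomputable def goodAlg : Subalgebra ℝ C(L ι, ℝ) where
  carrier := {g | Good g}
  mul_mem' := good_mul
  add_mem' := good_add
  algebraMap_mem' := good_const

theorem good_all (g : C(L ι, ℝ)) : Good g := by
  have hsep : (goodAlg ι).SeparatesPoints := by
    intro x y hxy
    have : ∃ i, x.1 i ≠ y.1 i := by
      by_contra hcon
      push Not at hcon
      exact hxy (Subtype.ext (funext hcon))
    obtain ⟨i, hi⟩ := this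
    refine ⟨coord i, ⟨coord i, ?_, rfl⟩, ?_⟩
    · cases i with
      | inl α => exact good_coord_inl α
      | inr J => exact good_coord_inr J
    · rw [coord_apply, coord_apply]
      intro h
      apply hi
      cases hx : x.1 i <;> cases hy : y.1 i <;> simp [hx, hy] at h ⊢
  have htop := ContinuousMap.subalgebra_topologicalClosure_eq_top_of_separatesPoints _ hsep
  refine good_closure fun ε hε => ?_
  have hg : g ∈ (goodAlg ι).topologicalClosure := by rw [htop]; trivial
  have hg' : g ∈ closure ((goodAlg ι : Subalgebra ℝ C(L ι, ℝ)) : Set C(L ι, ℝ)) := hg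
  obtain ⟨h, hh, hd⟩ := Metric.mem_closure_iff.1 hg' ε hε
  refine ⟨h, hh, ?_⟩
  rw [← dist_eq_norm]
  exact hd.le

end Pool.Agent.H62.BM
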